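import Pool.Agent.V8H88.GO.Any

/-!
# Compatible systems of any rank: geometric origin at one prime

Let `(ρ_p)` be a compatible system of irreducible representations of dimension `n` of the absolute
Galois group of a number field `K`, for example (`K = ℚ`) the one attached to an algebraic cuspidal
automorphic representation `Π` of `GL_n`, whose Frobenius polynomials at almost all primes are given by
the Satake parameters of `Π`. Let `X` be a smooth projective variety over `K`.

* Suppose that for the primes `v` in a set of upper density one all the roots of the polynomial of the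
  system at `v` are eigenvalues of Frobenius on `H^i(X)(j)`. Then for all allowed primes `p` and all
  embeddings of the field of coefficients the representation `ρ_p` is a subquotient of a tensor product
  of copies of `H^i(X, ℚ̄_p)(j)` and of its dual; so it is a subquotient of the cohomology of a power of
  `X`, up to a Tate twist.
* If `ρ_p` is a subquotient of the cohomology of a smooth projective variety for one `p` and one
  embedding, then for all `p` and all embeddings (so also for the conjugates of `Π`).

So the requirement of Clozel's conjecture that the realizations of one motive give the Galois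
representations of `Π` for all `p` is, on the level of subquotients of cohomology, a consequence of the
requirement for one `p`.

Idea of the proof. Let `V = H^i(X, ℚ̄_p)(j)` and `W = ρ_p`. By Chebotarev's theorem and continuity all
eigenvalues of `W(g)` are eigenvalues of `V(g)`, for all `g`. This is a polynomial condition on the
matrix coefficients, so the elements `ν` of the Zariski closure of the image of `V ⊕ W` which are
trivial on `V` are unipotent on `W`. They form a group which is normalized by an irreducible group, and
so `W(ν) = 1` by Kolchin's theorem. By a descent argument the matrix coefficients of `W` are polynomials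
in those of `V` and of its dual.
-/

set_option autoImplicit false

namespace Pool.Agent.Results.MP_7742d9_nt.OnePrimeSuffices

open Pool.Agent.V8H88.GO NumberField IsDedekindDomain Polynomial Pool.Agent.W401.Cheb

theorem result (K E : Type) [Field K] [NumberField K] [Field E] [NumberField E] (n : ℕ)
    (H : Cohomology K) (f : CompatibleSystem K E n) :
    -- (1) sets of primes of upper natural density one have dense Frobenius elements
    (∀ S : Set (HeightOneSpectrum (𝓞 K)), UpperDensityOne K S → FrobDense K S) ∧
    -- (2) it is enough that the roots are Frobenius eigenvalues at the primes of such a set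
    (∀ (x : H.Obj) (S : Set (HeightOneSpectrum (𝓞 K))), FrobDense K S →
      (∀ v ∈ S, ∃ N : ℕ, f.poly v ∣ ((H.frob x v).map (algebraMap ℚ E)) ^ N) →
      ∀ (p : ℕ) [Fact p.Prime], p ∈ f.primes → ∀ ι : E →+* PadicAlgCl p,
        (∃ (l : Type) (a : Fintype l) (b : DecidableEq l)
          (U : GK K →* Matrix l l (PadicAlgCl p)),
          IsTensorPower (H.rep p x) l a b U ∧ IsSubquotient (f.rep p ι) U) ∧
        H.Arises p (f.rep p ι)) ∧
    -- (3) independence of `p` and of the embedding
    ((∃ (p : ℕ) (_ : Fact p.Prime) (ι : E →+* PadicAlgCl p),
        p ∈ f.primes ∧ H.Arises p (f.rep p ι)) →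
      ∀ (p : ℕ) [Fact p.Prime], p ∈ f.primes → ∀ ι : E →+* PadicAlgCl p,
        H.Arises p (f.rep p ι)) := by
  have two : ∀ (x : H.Obj) (S : Set (HeightOneSpectrum (𝓞 K))), FrobDense K S →
      (∀ v ∈ S, ∃ N : ℕ, f.poly v ∣ ((H.frob x v).map (algebraMap ℚ E)) ^ N) →
      ∀ (p : ℕ) [Fact p.Prime], p ∈ f.primes → ∀ ι : E →+* PadicAlgCl p,
        (∃ (l : Type) (a : Fintype l) (b : DecidableEq l)
          (U : GK K →* Matrix l l (PadicAlgCl p)),
          IsTensorPower (H.rep p x) l a b U ∧ IsSubquotient (f.rep p ι) U) ∧
        H.Arises p (f.rep p ι) := by
    intro x S hS hroot p _ hp ι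
    obtain ⟨l, a, b, U, hU, hsub⟩ := all_roots H f x S hS hroot p hp ι
    obtain ⟨y, hy⟩ := tensorPower_sub H p x hU
    exact ⟨⟨l, a, b, U, hU, hsub⟩, y, hsub.trans hy⟩
  refine ⟨fun S hS => frobDense_of_density K S hS, two, ?_⟩
  rintro ⟨p₀, _, ι₀, hp₀, x, hx⟩ p _ hp ι
  obtain ⟨S, hS, hroot⟩ := independence' H f p₀ hp₀ ι₀ x hx
  exact (two x S hS hroot p hp ι).2

end Pool.Agent.Results.MP_7742d9_nt.OnePrimeSuffices
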